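import Pool.Agent.helper7.IG.Stmt1

/-! # IG project (MP_ebc808_nt), module TC: `X` and `Δ` are algebraically independent -/

set_option autoImplicit false

open Polynomial

noncomputable section

namespace Pool.Agent.helper7.IG

open Classical in
/-- power series version of `DDk` -/
def tc_dd : PowerSeries kk := PowerSeries.mk fun n =>
  if ∃ m : ℤ, m ^ 2 = n ∧ m ≡ 1 [ZMOD 2 ^ 1] then 1 else 0

lemma tc_DDk : DDk = HahnSeries.ofPowerSeries ℤ kk tc_dd := rfl

lemma tc_odd_iff (n : ℕ) : (∃ m : ℤ, m ^ 2 = n ∧ m ≡ 1 [ZMOD 2 ^ 1]) ↔ ∃ m : ℕ, Odd m ∧ n = m ^ 2 := by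
  constructor
  · rintro ⟨m, h1, h2⟩
    refine ⟨m.natAbs, ?_, ?_⟩
    · rw [Int.natAbs_odd, Int.odd_iff]
      simpa [Int.ModEq] using h2
    · have : ((m.natAbs : ℤ)) ^ 2 = (n : ℤ) := by rw [Int.natAbs_sq]; exact h1
      exact_mod_cast this.symm
  · rintro ⟨m, h1, h2⟩
    refine ⟨m, by rw [h2]; push_cast; ring, ?_⟩
    have : Odd (m : ℤ) := by exact_mod_cast h1
    rw [Int.odd_iff] at this
    simpa [Int.ModEq] using this

open Classical in
lemma tc_coeff_pow (i n : ℕ) : PowerSeries.coeff n (tc_dd ^ (2 ^ i)) =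
    if ∃ m : ℕ, Odd m ∧ n = 2 ^ i * m ^ 2 then 1 else 0 := by
  have : ExpChar kk 2 := ExpChar.prime Nat.prime_two
  have h1 : tc_dd ^ (2 ^ i) = PowerSeries.map (iterateFrobenius kk 2 i)
      (PowerSeries.expand (2 ^ i) (pow_ne_zero i two_ne_zero) tc_dd) :=
    (MvPowerSeries.map_iterateFrobenius_expand 2 two_ne_zero tc_dd i).symm
  rw [h1, PowerSeries.coeff_map, PowerSeries.coeff_expand]
  by_cases h : 2 ^ i ∣ n
  · obtain ⟨q, rfl⟩ := h
    rw [if_pos (dvd_mul_right _ _), Nat.mul_div_cancel_left _ (by positivity)]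
    unfold tc_dd
    rw [PowerSeries.coeff_mk]
    simp only [tc_odd_iff]
    have h2 : (∃ m : ℕ, Odd m ∧ 2 ^ i * q = 2 ^ i * m ^ 2) ↔ ∃ m : ℕ, Odd m ∧ q = m ^ 2 := by
      constructor
      · rintro ⟨m, h3, h4⟩
        exact ⟨m, h3, Nat.eq_of_mul_eq_mul_left (by positivity) h4⟩
      · rintro ⟨m, h3, h4⟩
        exact ⟨m, h3, by rw [h4]⟩
    simp only [h2]
    split_ifs <;> simp
  · rw [if_neg h, map_zero, if_neg]
    rintro ⟨m, -, h2⟩
    exact h ⟨m ^ 2, h2⟩

/-- a nontrivial relation between the powers `Δ ^ (2 ^ i)` -/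
lemma tc_rel (P : Polynomial (Polynomial kk)) (hP : P ≠ 0) (h0 : ev P = 0) :
    ∃ (s : Finset ℕ) (A : ℕ → Polynomial kk), ∑ i ∈ s, incl (A i) * DDk ^ (2 ^ i) = 0 ∧
      ∃ i ∈ s, A i ≠ 0 := by
  have hinj : Function.Injective incl := by
    unfold incl
    rw [RingHom.coe_comp]
    exact HahnSeries.ofPowerSeries_injective.comp (Polynomial.coe_injective kk)
  set K := FractionRing (Polynomial kk) with hK
  let φ : K →+* LL := IsFractionRing.lift hinj
  have hφ : ∀ a : Polynomial kk, φ (algebraMap (Polynomial kk) K a) = incl a :=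
    fun a => IsFractionRing.lift_algebraMap hinj a
  let : Algebra K LL := φ.toAlgebra
  have halg : IsAlgebraic K DDk := by
    refine ⟨P.map (algebraMap (Polynomial kk) K), ?_, ?_⟩
    · rw [Ne, Polynomial.map_eq_zero_iff (IsFractionRing.injective _ _)]
      exact hP
    · rw [Polynomial.aeval_def, Polynomial.eval₂_map]
      have : (algebraMap K LL).comp (algebraMap (Polynomial kk) K) = incl :=
        RingHom.ext fun a => hφ a
      rw [this]
      exact h0
  have : FiniteDimensional K (IntermediateField.adjoin K {DDk}) :=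
    IntermediateField.adjoin.finiteDimensional halg.isIntegral
  have h1 := Module.Finite.not_linearIndependent_of_infinite (R := K)
    (fun i : ℕ => (IntermediateField.AdjoinSimple.gen K DDk) ^ (2 ^ i))
  rw [not_linearIndependent_iff] at h1
  obtain ⟨s, g, hg, i, hi, hgi⟩ := h1
  have h2 : ∑ i ∈ s, φ (g i) * DDk ^ (2 ^ i) = 0 := by
    have h3 := congrArg (fun x : IntermediateField.adjoin K {DDk} => (x : LL)) hg
    rw [show ((0 : IntermediateField.adjoin K {DDk}) : LL) = 0 from rfl] at h3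
    rw [← h3]
    have h4 : ((∑ i ∈ s, g i • (IntermediateField.AdjoinSimple.gen K DDk) ^ (2 ^ i) :
        IntermediateField.adjoin K {DDk}) : LL) =
        ∑ i ∈ s, ((g i • (IntermediateField.AdjoinSimple.gen K DDk) ^ (2 ^ i) :
          IntermediateField.adjoin K {DDk}) : LL) :=
      map_sum (IntermediateField.adjoin K {DDk}).val _ s
    rw [h4]
    refine Finset.sum_congr rfl fun i _ => ?_
    rw [IntermediateField.coe_smul, IntermediateField.coe_pow,
      IntermediateField.AdjoinSimple.coe_gen, Algebra.smul_def]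
    rfl
  obtain ⟨b, hb⟩ := IsLocalization.exist_integer_multiples (nonZeroDivisors (Polynomial kk)) s g
  choose! A hA using hb
  refine ⟨s, A, ?_, i, hi, ?_⟩
  · have h4 : ∀ i ∈ s, incl (A i) * DDk ^ (2 ^ i) = incl (b : Polynomial kk) * (φ (g i) * DDk ^ (2 ^ i)) := by
      intro i hi
      rw [← hφ (A i), hA i hi, Algebra.smul_def, map_mul, hφ, mul_assoc]
    rw [Finset.sum_congr rfl h4, ← Finset.mul_sum, h2, mul_zero]
  · intro h5
    have h6 := hA i hi
    rw [h5, map_zero, Algebra.smul_def, eq_comm, mul_eq_zero] at h6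
    rcases h6 with h6 | h6
    · have h7 : (b : Polynomial kk) = 0 := (map_eq_zero_iff _ (IsFractionRing.injective _ _)).1 h6
      exact nonZeroDivisors.ne_zero b.2 h7
    · exact hgi h6

lemma tc_nt (D k n n' : ℤ) (hD : 0 ≤ D) (hk : 10 * (D + 1) ≤ k) (hn : 0 ≤ n) (hn' : 0 ≤ n')
    (h1 : |2 * n ^ 2 - k ^ 2| ≤ D) (h2 : |2 * n' ^ 2 - (k + 2) ^ 2| ≤ D) : False := by
  rw [abs_le] at h1 h2
  obtain ⟨h3, h4⟩ := h1
  obtain ⟨h5, h6⟩ := h2
  have h7 : n < n' := by
    by_contra h
    push Not at h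
    nlinarith
  rcases (Int.add_one_le_iff.2 h7).eq_or_lt with h8 | h8
  · subst h8
    have h9 : 2 * k + 1 - D ≤ 2 * n := by nlinarith
    have h10 : 0 ≤ 2 * k + 1 - D := by linarith
    have h11 : (2 * k + 1 - D) ^ 2 ≤ (2 * n) ^ 2 := pow_le_pow_left₀ h10 h9 2
    nlinarith
  · have h8' : n + 2 ≤ n' := by omega
    have h9 : (n + 2) ^ 2 ≤ n' ^ 2 := pow_le_pow_left₀ (by linarith) h8' 2
    have h10 : 4 * n ≤ 2 * k + D := by nlinarith
    have h11 : (4 * n) ^ 2 ≤ (2 * k + D) ^ 2 := pow_le_pow_left₀ (by linarith) h10 2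
    nlinarith

lemma tc_nt2 (D k : ℤ) (j m : ℕ) (hD : 0 ≤ D) (hk : 10 * (D + 1) ≤ k) (hodd : Odd k)
    (hj : 1 ≤ j) (h : |2 ^ j * (m : ℤ) ^ 2 - k ^ 2| ≤ D) :
    ∃ n : ℤ, 0 ≤ n ∧ |2 * n ^ 2 - k ^ 2| ≤ D := by
  rcases Nat.even_or_odd' j with ⟨l, hl | hl⟩
  · exfalso
    have hl1 : 1 ≤ l := by omega
    set u : ℤ := 2 ^ l * m with hu
    have h1 : 2 ^ j * (m : ℤ) ^ 2 = u ^ 2 := by
      rw [hu, hl, mul_pow, ← pow_mul, mul_comm l 2]
    rw [h1] at h
    have hu0 : 0 ≤ u := by positivity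
    have heven : Even u := by
      rw [hu]
      obtain ⟨l', rfl⟩ := Nat.exists_eq_add_of_le hl1
      rw [pow_add, pow_one, mul_assoc]
      exact even_two_mul _
    have hne : u ≠ k := by
      rintro rfl
      exact (Int.not_even_iff_odd.2 hodd) heven
    rw [abs_le] at h
    rcases lt_or_gt_of_ne hne with h2 | h2
    · nlinarith
    · nlinarith
  · refine ⟨2 ^ l * m, by positivity, ?_⟩
    have h1 : 2 * (2 ^ l * (m : ℤ)) ^ 2 = 2 ^ j * (m : ℤ) ^ 2 := by
      rw [hl, mul_pow, ← pow_mul, pow_succ, mul_comm l 2]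
      ring
    rw [h1]
    exact h

lemma tc_key (s : Finset ℕ) (A : ℕ → Polynomial kk)
    (h : ∑ i ∈ s, (A i : PowerSeries kk) * tc_dd ^ (2 ^ i) = 0) (i₁ : ℕ) (hi₁ : i₁ ∈ s)
    (hA : A i₁ ≠ 0) : False := by
  classical
  set T := s.filter (fun i => A i ≠ 0) with hT
  have hTne : T.Nonempty := ⟨i₁, by simp [hT, hi₁, hA]⟩
  set i₀ := T.min' hTne with hi₀
  have hi₀T : i₀ ∈ T := Finset.min'_mem _ _
  have hi₀s : i₀ ∈ s := (Finset.mem_filter.1 hi₀T).1
  have hA₀ : A i₀ ≠ 0 := (Finset.mem_filter.1 hi₀T).2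
  set D := s.sup (fun i => (A i).natDegree) with hD
  set a₀ := (A i₀).natDegree with ha₀
  have ha₀D : a₀ ≤ D := Finset.le_sup (f := fun i => (A i).natDegree) hi₀s
  have key : ∀ k : ℕ, Odd k → 10 * (D + 1) ≤ k →
      ∃ n : ℤ, 0 ≤ n ∧ |2 * n ^ 2 - (k : ℤ) ^ 2| ≤ (D : ℤ) := by
    intro k hk hkD
    set N := 2 ^ i₀ * k ^ 2 + a₀ with hN
    have h1 := congrArg (PowerSeries.coeff N) h
    rw [map_sum, map_zero, ← Finset.add_sum_erase _ _ hi₀s] at h1
    have h2 : PowerSeries.coeff N ((A i₀ : PowerSeries kk) * tc_dd ^ (2 ^ i₀)) =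
        (A i₀).coeff a₀ := by
      rw [PowerSeries.coeff_mul, Finset.sum_eq_single (a₀, 2 ^ i₀ * k ^ 2)]
      · rw [Polynomial.coeff_coe, tc_coeff_pow, if_pos ⟨k, hk, rfl⟩, mul_one]
      · rintro ⟨a, b⟩ hab hne
        rw [Finset.HasAntidiagonal.mem_antidiagonal] at hab
        simp only at hab
        rw [Polynomial.coeff_coe, tc_coeff_pow]
        by_cases hb : ∃ m : ℕ, Odd m ∧ b = 2 ^ i₀ * m ^ 2
        · obtain ⟨m, hm, rfl⟩ := hb
          by_cases ha : a ≤ a₀
          · exfalso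
            apply hne
            have hmk : m = k := by
              by_contra hmk
              have h3 : k ^ 2 ≤ m ^ 2 := by
                by_contra h3
                push Not at h3
                have := Nat.mul_lt_mul_of_pos_left h3 (show 0 < 2 ^ i₀ by positivity)
                omega
              have h4 : k ≤ m := by
                by_contra h4
                push Not at h4
                have := Nat.pow_lt_pow_left h4 two_ne_zero
                omega
              have h5 : k + 1 ≤ m := by omega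
              have h6 : (k + 1) ^ 2 ≤ m ^ 2 := Nat.pow_le_pow_left h5 2
              have h7 : 2 ^ i₀ * (k ^ 2 + k) ≤ 2 ^ i₀ * m ^ 2 :=
                Nat.mul_le_mul_left _ (by nlinarith)
              have h8 : 1 * k ≤ 2 ^ i₀ * k := Nat.mul_le_mul_right _ Nat.one_le_two_pow
              rw [mul_add] at h7
              omega
            subst hmk
            have : a = a₀ := by omega
            rw [this]
          · rw [Polynomial.coeff_eq_zero_of_natDegree_lt (by omega), zero_mul]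
        · rw [if_neg hb, mul_zero]
      · intro hne
        exfalso
        apply hne
        rw [Finset.HasAntidiagonal.mem_antidiagonal]
        simp only
        omega
    rw [h2] at h1
    have h3 : (A i₀).coeff a₀ ≠ 0 := by
      rw [ha₀]
      exact Polynomial.leadingCoeff_ne_zero.2 hA₀
    have h4 : ∑ i ∈ s.erase i₀, PowerSeries.coeff N ((A i : PowerSeries kk) * tc_dd ^ (2 ^ i)) ≠ 0 := by
      intro h5
      rw [h5, add_zero] at h1
      exact h3 h1
    obtain ⟨i, hi, h5⟩ := Finset.exists_ne_zero_of_sum_ne_zero h4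
    rw [PowerSeries.coeff_mul] at h5
    obtain ⟨⟨a, b⟩, hab, h6⟩ := Finset.exists_ne_zero_of_sum_ne_zero h5
    rw [Finset.HasAntidiagonal.mem_antidiagonal] at hab
    simp only at hab h6
    rw [Polynomial.coeff_coe, tc_coeff_pow] at h6
    have hAi : A i ≠ 0 := by
      rintro h7
      rw [h7] at h6
      simp at h6
    have his : i ∈ s := Finset.mem_of_mem_erase hi
    have hii : i ≠ i₀ := Finset.ne_of_mem_erase hi
    have hile : i₀ ≤ i := Finset.min'_le _ _ (Finset.mem_filter.2 ⟨his, hAi⟩)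
    have haD : a ≤ D := by
      by_contra h7
      push Not at h7
      have : (A i).natDegree ≤ D := Finset.le_sup (f := fun i => (A i).natDegree) his
      rw [Polynomial.coeff_eq_zero_of_natDegree_lt (by omega), zero_mul] at h6
      exact h6 rfl
    have hb : ∃ m : ℕ, Odd m ∧ b = 2 ^ i * m ^ 2 := by
      by_contra hb
      rw [if_neg hb, mul_zero] at h6
      exact h6 rfl
    obtain ⟨m, -, hm⟩ := hb
    obtain ⟨j, rfl⟩ := Nat.exists_eq_add_of_le hile
    refine tc_nt2 D k j m (by positivity) (by exact_mod_cast hkD) (by exact_mod_cast hk)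
      (by omega) ?_
    have h7 : (a : ℤ) + 2 ^ (i₀ + j) * (m : ℤ) ^ 2 = 2 ^ i₀ * (k : ℤ) ^ 2 + a₀ := by
      rw [hm, hN] at hab
      exact_mod_cast hab
    have h8 : (2 : ℤ) ^ i₀ * (2 ^ j * (m : ℤ) ^ 2 - (k : ℤ) ^ 2) = a₀ - a := by
      rw [pow_add] at h7
      linarith
    have h9 : |(2 : ℤ) ^ i₀ * (2 ^ j * (m : ℤ) ^ 2 - (k : ℤ) ^ 2)| ≤ (D : ℤ) := by
      rw [h8, abs_le]
      constructor <;> omega
    rw [abs_mul, abs_of_pos (by positivity)] at h9
    refine le_trans ?_ h9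
    exact le_mul_of_one_le_left (abs_nonneg _) (one_le_pow₀ (by norm_num))
  obtain ⟨n, hn, h1⟩ := key (10 * (D + 1) + 1) (by
    rw [Nat.odd_iff]; omega) (by omega)
  obtain ⟨n', hn', h2⟩ := key (10 * (D + 1) + 1 + 2) (by
    rw [Nat.odd_iff]; omega) (by omega)
  refine tc_nt D (10 * (D + 1) + 1 : ℕ) n n' (by positivity) (by push_cast; linarith) hn hn' h1 ?_
  exact_mod_cast h2

theorem TC : TC_stmt := by
  intro P hP h0
  obtain ⟨s, A, h1, i, hi, hA⟩ := tc_rel P hP h0
  refine tc_key s A ?_ i hi hA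
  apply HahnSeries.ofPowerSeries_injective (Γ := ℤ) (R := kk)
  rw [map_zero, map_sum, ← h1]
  refine Finset.sum_congr rfl fun i _ => ?_
  rw [map_mul, map_pow]
  rfl

end Pool.Agent.helper7.IG
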