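import Pool.Agent.helper18.IG.TC

/-! # IG project (MP_ebc808_nt), module ZS: the zero estimate in the separable case -/

set_option autoImplicit false

open Polynomial

noncomputable section

namespace Pool.Agent.helper7.IG

/-- `Θ` acts on the entries of `w` through combinations with polynomial coefficients of degree
at most `D`. -/
def ZsEig {ι : Type} [Fintype ι] (w : ι → PowerSeries kk) (D : ℕ) (Θ : PowerSeries kk) : Prop :=
  ∀ i, ∃ c : ι → Polynomial kk, (∀ j, (c j).natDegree ≤ D) ∧
    ∑ j, (c j : PowerSeries kk) * w j = Θ * w i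

lemma ZsEig.mono {ι : Type} [Fintype ι] {w : ι → PowerSeries kk} {D D' : ℕ} {Θ : PowerSeries kk}
    (h : ZsEig w D Θ) (hD : D ≤ D') : ZsEig w D' Θ := by
  intro i
  obtain ⟨c, h1, h2⟩ := h i
  exact ⟨c, fun j => (h1 j).trans hD, h2⟩

lemma ZsEig.add {ι : Type} [Fintype ι] {w : ι → PowerSeries kk} {D : ℕ} {Θ Θ' : PowerSeries kk}
    (h : ZsEig w D Θ) (h' : ZsEig w D Θ') : ZsEig w D (Θ + Θ') := by
  intro i
  obtain ⟨c, h1, h2⟩ := h i
  obtain ⟨c', h1', h2'⟩ := h' i
  refine ⟨fun j => c j + c' j, fun j => (Polynomial.natDegree_add_le _ _).trans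
    (max_le (h1 j) (h1' j)), ?_⟩
  rw [add_mul, ← h2, ← h2', ← Finset.sum_add_distrib]
  refine Finset.sum_congr rfl fun j _ => ?_
  rw [Polynomial.coe_add, add_mul]

lemma ZsEig.mul {ι : Type} [Fintype ι] {w : ι → PowerSeries kk} {D D' : ℕ}
    {Θ Θ' : PowerSeries kk} (h : ZsEig w D Θ) (h' : ZsEig w D' Θ') :
    ZsEig w (D + D') (Θ * Θ') := by
  intro i
  choose c h1 h2 using h
  obtain ⟨c', h1', h2'⟩ := h' i
  refine ⟨fun j => ∑ l, c' l * c l j, fun j => ?_, ?_⟩
  · refine Polynomial.natDegree_sum_le_of_forall_le _ _ fun l _ => ?_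
    refine Polynomial.natDegree_mul_le.trans ?_
    have := h1 l j
    have := h1' l
    omega
  · rw [mul_assoc, ← h2', Finset.mul_sum]
    have h3 : ∀ j, ((∑ l, c' l * c l j : Polynomial kk) : PowerSeries kk) * w j =
        ∑ l, (c' l : PowerSeries kk) * ((c l j : PowerSeries kk) * w j) := by
      intro j
      have h4 : ((∑ l, c' l * c l j : Polynomial kk) : PowerSeries kk) =
          ∑ l, (c' l : PowerSeries kk) * (c l j : PowerSeries kk) := by
        have := map_sum (Polynomial.coeToPowerSeries.ringHom (R := kk)) (fun l => c' l * c l j)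
          Finset.univ
        simp only [Polynomial.coeToPowerSeries.ringHom_apply, Polynomial.coe_mul] at this
        exact this
      rw [h4, Finset.sum_mul]
      refine Finset.sum_congr rfl fun l _ => by ring
    simp only [h3]
    rw [Finset.sum_comm]
    refine Finset.sum_congr rfl fun l _ => ?_
    rw [← Finset.mul_sum, h2 l]
    ring

lemma ZsEig.poly {ι : Type} [Fintype ι] [DecidableEq ι] (w : ι → PowerSeries kk) {D : ℕ}
    (p : Polynomial kk) (hp : p.natDegree ≤ D) : ZsEig w D (p : PowerSeries kk) := by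
  intro i
  refine ⟨fun j => if j = i then p else 0, fun j => ?_, ?_⟩
  · dsimp only
    split_ifs
    · exact hp
    · simp
  · rw [Finset.sum_eq_single i]
    · simp
    · intro j _ hj
      simp [hj]
    · simp

lemma ZsEig.pow {ι : Type} [Fintype ι] [DecidableEq ι] {w : ι → PowerSeries kk} {D : ℕ}
    {Θ : PowerSeries kk} (h : ZsEig w D Θ) (n : ℕ) : ZsEig w (n * D) (Θ ^ n) := by
  induction n with
  | zero =>
    have := ZsEig.poly w (D := 0 * D) (1 : Polynomial kk) (by simp)
    simpa using this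
  | succ n ih =>
    rw [pow_succ, add_mul, one_mul]
    exact ih.mul h

lemma ZsEig.equiv {ι κ : Type} [Fintype ι] [Fintype κ] (e : ι ≃ κ) {w : κ → PowerSeries kk}
    {D : ℕ} {Θ : PowerSeries kk} (h : ZsEig (fun i => w (e i)) D Θ) : ZsEig w D Θ := by
  intro k
  obtain ⟨c, h1, h2⟩ := h (e.symm k)
  refine ⟨fun j => c (e.symm j), fun j => h1 _, ?_⟩
  simp only [Equiv.apply_symm_apply] at h2
  rw [← h2]
  rw [← Equiv.sum_comp e]
  simp

/-- from ZsEig to a matrix over `Fin m` -/
lemma ZsEig.lio (hlio : LIO_stmt) {ι : Type} [Fintype ι] {w : ι → PowerSeries kk} {D : ℕ}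
    {Θ : PowerSeries kk} (h : ZsEig w D Θ) (hw : w ≠ 0) (hΘ : Θ ≠ 0) :
    ¬ (PowerSeries.X ^ (Fintype.card ι * D + 1) ∣ Θ) := by
  classical
  set e := Fintype.equivFin ι with he
  choose c h1 h2 using h
  refine hlio (Fintype.card ι) D (Matrix.of fun i j => c (e.symm i) (e.symm j))
    (fun i => w (e.symm i)) Θ (fun i j => h1 _ _) ?_ ?_ hΘ
  · intro h3
    apply hw
    funext i
    have := congrFun h3 (e i)
    simpa using this
  · funext i
    rw [Matrix.mulVec, dotProduct]
    simp only [Matrix.map_apply, Matrix.of_apply, Pi.smul_apply, smul_eq_mul]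
    rw [← h2 (e.symm i), ← Equiv.sum_comp e.symm]

/-- the companion relation -/
lemma zs_comp (Q : Polynomial (Polynomial kk)) (d H : ℕ) (hd : Q.natDegree = d)
    (hdeg : ∀ k, (Q.coeff k).natDegree ≤ H) (y z : PowerSeries kk)
    (h : (Q.map (Polynomial.coeToPowerSeries.ringHom (R := kk))).eval y = 0) :
    ZsEig (fun ij : Fin d × Fin d => y ^ (ij.1 : ℕ) * z ^ (ij.2 : ℕ)) H
      ((Q.leadingCoeff : PowerSeries kk) * y) := by
  classical
  rintro ⟨i, j⟩
  by_cases hi : (i : ℕ) + 1 < d
  · refine ⟨fun kl => if kl = (⟨i + 1, hi⟩, j) then Q.leadingCoeff else 0, fun kl => ?_, ?_⟩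
    · dsimp only
      split_ifs
      · exact hdeg _
      · simp
    · rw [Finset.sum_eq_single (⟨i + 1, hi⟩, j)]
      · simp only [if_true]
        ring
      · intro kl _ hkl
        simp [hkl]
      · simp
  · have hi' : (i : ℕ) + 1 = d := by have := i.2; omega
    refine ⟨fun kl => if kl.2 = j then - Q.coeff kl.1 else 0, fun kl => ?_, ?_⟩
    · dsimp only
      split_ifs
      · rw [Polynomial.natDegree_neg]
        exact hdeg _
      · simp
    · rw [Fintype.sum_prod_type]
      have h1 : ∀ k : Fin d, ∑ l : Fin d,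
          (((if l = j then - Q.coeff k else 0 : Polynomial kk)) : PowerSeries kk) *
            (y ^ (k : ℕ) * z ^ (l : ℕ)) = - ((Q.coeff k : PowerSeries kk) * y ^ (k : ℕ)) * z ^ (j : ℕ) := by
        intro k
        rw [Finset.sum_eq_single j]
        · rw [if_pos rfl]
          rw [Polynomial.coe_neg]
          ring
        · intro l _ hl
          simp [hl]
        · simp
      simp only [h1]
      rw [← Finset.sum_mul, Finset.sum_neg_distrib]
      rw [Polynomial.eval_map, Polynomial.eval₂_eq_sum_range, hd, Finset.sum_range_succ,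
        Finset.sum_range] at h
      simp only [Polynomial.coeToPowerSeries.ringHom_apply] at h
      have h2 : Q.leadingCoeff = Q.coeff d := by rw [Polynomial.leadingCoeff, hd]
      rw [h2]
      have h3 : y ^ d = y * y ^ (i : ℕ) := (congrArg (y ^ ·) hi'.symm).trans (pow_succ' y _)
      rw [h3] at h
      linear_combination (- z ^ (j : ℕ)) * h

lemma zs_expand_coe (p : Polynomial kk) :
    PowerSeries.expand 3 (by norm_num) (p : PowerSeries kk) =
      ((Polynomial.expand kk 3 p : Polynomial kk) : PowerSeries kk) := by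
  ext n
  rw [PowerSeries.coeff_expand, Polynomial.coeff_coe, Polynomial.coeff_coe,
    Polynomial.coeff_expand (by norm_num)]

lemma zs_sig (F : PowerSeries kk) : sig 3 1 (HahnSeries.ofPowerSeries ℤ kk F) =
    HahnSeries.ofPowerSeries ℤ kk (PowerSeries.expand 3 (by norm_num) F) := by
  ext n
  rw [sig_coeff (by norm_num)]
  have hF : ∀ G : PowerSeries kk, HahnSeries.ofPowerSeries ℤ kk G =
      ps (fun n => PowerSeries.coeff n G) := by
    intro G
    unfold ps
    congr 1
    ext n
    rw [PowerSeries.coeff_mk]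
  rw [hF F, hF (PowerSeries.expand 3 (by norm_num) F), ps_coeff]
  simp only [one_zpow, Units.val_one, one_mul, ps_coeff, PowerSeries.coeff_expand]
  by_cases h3 : ((3 : ℕ) : ℤ) ∣ n
  · rw [if_pos h3]
    obtain ⟨m, rfl⟩ := h3
    rw [Int.mul_ediv_cancel_left _ (by norm_num)]
    by_cases hm : 0 ≤ m
    · obtain ⟨l, rfl⟩ := Int.eq_ofNat_of_zero_le hm
      have h4 : (((3 : ℕ) : ℤ) * (l : ℤ)).toNat = 3 * l := by
        omega
      rw [if_pos hm, if_pos (by positivity), h4, if_pos (dvd_mul_right _ _),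
        Nat.mul_div_cancel_left _ (by norm_num)]
      simp
    · rw [if_neg hm, if_neg (by push_cast; omega)]
  · rw [if_neg h3]
    by_cases hn : 0 ≤ n
    · obtain ⟨l, rfl⟩ := Int.eq_ofNat_of_zero_le hn
      rw [if_pos hn, if_neg]
      intro h5
      apply h3
      have : (Int.toNat (l : ℤ)) = l := by simp
      rw [this] at h5
      exact_mod_cast h5
    · rw [if_neg hn]

lemma zs_phi (hphi : PHI3_stmt) : tc_dd ^ 4 + (PowerSeries.expand 3 (by norm_num) tc_dd) ^ 4 =
    tc_dd * PowerSeries.expand 3 (by norm_num) tc_dd := by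
  apply HahnSeries.ofPowerSeries_injective (Γ := ℤ) (R := kk)
  rw [map_add, map_pow, map_pow, map_mul, ← zs_sig, ← tc_DDk]
  exact hphi

lemma zs_two : (2 : PowerSeries kk) = 0 := by
  have h : (2 : kk) = 0 := CharTwo.two_eq_zero
  have : (2 : PowerSeries kk) = PowerSeries.C (2 : kk) := (map_ofNat (PowerSeries.C (R := kk)) 2).symm
  rw [this, h, map_zero]

lemma zs_four (a b : PowerSeries kk) : (a + b) ^ 4 = a ^ 4 + b ^ 4 := by
  linear_combination (2 * a ^ 3 * b + 3 * a ^ 2 * b ^ 2 + 2 * a * b ^ 3) * zs_two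

lemma zs_theta (hphi : PHI3_stmt) (ε : PowerSeries kk) :
    (PowerSeries.expand 3 (by norm_num) (tc_dd + ε) + (tc_dd + ε)) ^ 4 +
      PowerSeries.expand 3 (by norm_num) (tc_dd + ε) * (tc_dd + ε) =
    ε ^ 4 + (PowerSeries.expand 3 (by norm_num) ε) ^ 4 +
      tc_dd * PowerSeries.expand 3 (by norm_num) ε +
      PowerSeries.expand 3 (by norm_num) tc_dd * ε +
      PowerSeries.expand 3 (by norm_num) ε * ε := by
  rw [map_add]
  set D := tc_dd
  set D' := PowerSeries.expand 3 (by norm_num) D with hD'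
  set ε' := PowerSeries.expand 3 (by norm_num) ε
  have h := zs_phi hphi
  change D ^ 4 + D' ^ 4 = D * D' at h
  rw [zs_four, zs_four, zs_four]
  linear_combination h + D * D' * zs_two

/-- power series version of `ev` -/
def zs_ev (P : Polynomial (Polynomial kk)) : PowerSeries kk :=
  (P.map (Polynomial.coeToPowerSeries.ringHom (R := kk))).eval tc_dd

lemma zs_ev_eq (P : Polynomial (Polynomial kk)) :
    ev P = HahnSeries.ofPowerSeries ℤ kk (zs_ev P) := by
  unfold ev zs_ev
  rw [Polynomial.eval_map, Polynomial.hom_eval₂, tc_DDk]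
  rfl

lemma zs_ev_mul (P Q : Polynomial (Polynomial kk)) : zs_ev (P * Q) = zs_ev P * zs_ev Q := by
  unfold zs_ev
  rw [Polynomial.map_mul, Polynomial.eval_mul]

lemma zs_ev_add (P Q : Polynomial (Polynomial kk)) : zs_ev (P + Q) = zs_ev P + zs_ev Q := by
  unfold zs_ev
  rw [Polynomial.map_add, Polynomial.eval_add]

lemma zs_ev_C (R : Polynomial kk) : zs_ev (C R) = (R : PowerSeries kk) := by
  unfold zs_ev
  rw [Polynomial.map_C, Polynomial.eval_C]
  rfl

lemma zs_dd_zero : PowerSeries.coeff 0 tc_dd = 0 := by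
  have h := tc_coeff_pow 0 0
  rw [pow_zero, pow_one] at h
  rw [h, if_neg]
  rintro ⟨m, hm, h2⟩
  rw [one_mul, eq_comm, sq_eq_zero_iff] at h2
  subst h2
  simp at hm

lemma zs_dd_one : PowerSeries.coeff 1 tc_dd = 1 := by
  have h := tc_coeff_pow 0 1
  rw [pow_zero, pow_one] at h
  rw [h, if_pos ⟨1, odd_one, by norm_num⟩]

lemma zs_theta_ne (ε : PowerSeries kk) (hε : ε ≠ 0) (h2 : PowerSeries.X ^ 2 ∣ ε) :
    ε ^ 4 + (PowerSeries.expand 3 (by norm_num) ε) ^ 4 +
      tc_dd * PowerSeries.expand 3 (by norm_num) ε +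
      PowerSeries.expand 3 (by norm_num) tc_dd * ε +
      PowerSeries.expand 3 (by norm_num) ε * ε ≠ 0 := by
  set E := ε.order.toNat with hE
  have hE2 : 2 ≤ E := by
    by_contra h
    push Not at h
    have h3 : PowerSeries.coeff E ε ≠ 0 := PowerSeries.coeff_order hε
    apply h3
    exact PowerSeries.X_pow_dvd_iff.1 h2 E h
  obtain ⟨u, hu⟩ : PowerSeries.X ^ E ∣ ε := by
    have := PowerSeries.X_pow_order_dvd (φ := ε)
    exact this
  have hu0 : PowerSeries.constantCoeff u ≠ 0 := by
    have h3 : PowerSeries.coeff E ε ≠ 0 := PowerSeries.coeff_order hε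
    rw [hu] at h3
    intro h4
    apply h3
    have := PowerSeries.coeff_X_pow_mul u E 0
    rw [zero_add] at this
    rw [this, PowerSeries.coeff_zero_eq_constantCoeff_apply, h4]
  obtain ⟨v, hv⟩ : PowerSeries.X ∣ tc_dd := by
    rw [PowerSeries.X_dvd_iff, ← PowerSeries.coeff_zero_eq_constantCoeff_apply]
    exact zs_dd_zero
  have hv0 : PowerSeries.constantCoeff v = 1 := by
    have h3 := zs_dd_one
    rw [hv] at h3
    have := PowerSeries.coeff_X_pow_mul v 1 0
    rw [zero_add, pow_one] at this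
    rw [this, PowerSeries.coeff_zero_eq_constantCoeff_apply] at h3
    exact h3
  set u' := PowerSeries.expand 3 (by norm_num) u with hu'
  set v' := PowerSeries.expand 3 (by norm_num) v with hv'
  have h3 : PowerSeries.expand 3 (by norm_num) ε = PowerSeries.X ^ (3 * E) * u' := by
    rw [hu, map_mul, map_pow, PowerSeries.expand_X, ← pow_mul]
  have h4 : PowerSeries.expand 3 (by norm_num) tc_dd = PowerSeries.X ^ 3 * v' := by
    rw [hv, map_mul, PowerSeries.expand_X]
  have hv'0 : PowerSeries.constantCoeff v' = 1 := by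
    rw [hv', PowerSeries.constantCoeff_expand, hv0]
  obtain ⟨e, he⟩ := Nat.exists_eq_add_of_le hE2
  set X' : PowerSeries kk := PowerSeries.X with hX'
  have h5 : ε ^ 4 + (PowerSeries.expand 3 (by norm_num) ε) ^ 4 +
      tc_dd * PowerSeries.expand 3 (by norm_num) ε +
      PowerSeries.expand 3 (by norm_num) tc_dd * ε +
      PowerSeries.expand 3 (by norm_num) ε * ε =
      X' ^ (E + 3) * (v' * u + X' * (X' ^ (2 + 3 * e) * u ^ 4 + X' ^ (18 + 11 * e) * u' ^ 4 +
        X' ^ (1 + 2 * e) * v * u' + X' ^ (2 + 3 * e) * u' * u)) := by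
    rw [h3, h4, hu, hv, he]
    ring
  rw [h5]
  refine mul_ne_zero (pow_ne_zero _ PowerSeries.X_ne_zero) ?_
  intro h6
  have h7 := congrArg PowerSeries.constantCoeff h6
  rw [map_add, map_mul, map_mul, hv'0, one_mul, hX', PowerSeries.constantCoeff_X, zero_mul,
    add_zero, map_zero] at h7
  exact hu0 h7

theorem ZS_of (htc : TC_stmt) (hhen : HEN_stmt) (hlio : LIO_stmt) (hphi : PHI3_stmt) :
    ZS_stmt := by
  intro n
  refine ⟨16 * n ^ 2 + 4 * n + 2, ?_⟩
  intro H P A B R hP hPn hPH hR hRn hAB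
  -- the order as a natural number
  have hev : zs_ev P ≠ 0 := by
    intro h
    apply htc P hP
    rw [zs_ev_eq, h, map_zero]
  set M := (zs_ev P).order.toNat with hM
  have hMc : PowerSeries.coeff M (zs_ev P) ≠ 0 := PowerSeries.coeff_order hev
  have hMd : PowerSeries.X ^ M ∣ zs_ev P := PowerSeries.X_pow_order_dvd
  have hle : (ev P).order ≤ M := by
    apply HahnSeries.order_le_of_coeff_ne_zero
    rw [zs_ev_eq, HahnSeries.ofPowerSeries_apply_coeff]
    exact hMc
  refine hle.trans ?_
  suffices hgoal : M ≤ (16 * n ^ 2 + 4 * n + 2) * (H + 1) by exact_mod_cast hgoal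
  by_contra hcon
  push Not at hcon
  set δ := 2 * n * H with hδ
  have hbig : 16 * n ^ 2 * H + 4 * n * H + 2 * H + 2 < M := by
    refine lt_of_le_of_lt ?_ hcon
    nlinarith
  -- the degree of P is positive
  set d := P.natDegree with hd
  have hd1 : 1 ≤ d := by
    by_contra h
    have hd0 : P.natDegree = 0 := by omega
    obtain ⟨h₀, hh₀⟩ : ∃ h₀ : Polynomial kk, P = C h₀ :=
      ⟨P.coeff 0, Polynomial.eq_C_of_natDegree_eq_zero hd0⟩
    have h1 : zs_ev P = (h₀ : PowerSeries kk) := by rw [hh₀, zs_ev_C]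
    rw [h1, Polynomial.coeff_coe] at hMc
    apply hMc
    apply Polynomial.coeff_eq_zero_of_natDegree_lt
    have h2 := hPH 0
    rw [hh₀, Polynomial.coeff_C_zero] at h2
    nlinarith
  -- the derivative
  have hder : ¬ (PowerSeries.X ^ (δ + 1) ∣ zs_ev P.derivative) := by
    intro h
    have h1 : PowerSeries.X ^ (δ + 1) ∣ zs_ev P :=
      (pow_dvd_pow _ (by nlinarith)).trans hMd
    have h2 : PowerSeries.X ^ (δ + 1) ∣ (R : PowerSeries kk) := by
      rw [← zs_ev_C, ← hAB, zs_ev_add, zs_ev_mul, zs_ev_mul]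
      exact dvd_add (dvd_mul_of_dvd_right h1 _) (dvd_mul_of_dvd_right h _)
    rw [PowerSeries.X_pow_dvd_iff] at h2
    apply hR
    ext k
    rw [Polynomial.coeff_zero]
    by_cases hk : k < δ + 1
    · have := h2 k hk
      rwa [Polynomial.coeff_coe] at this
    · exact Polynomial.coeff_eq_zero_of_natDegree_lt (by omega)
  obtain ⟨y, hy, hyd⟩ := hhen (P.map (Polynomial.coeToPowerSeries.ringHom (R := kk))) tc_dd δ M
    (by nlinarith) hMd (by rw [Polynomial.derivative_map]; exact hder)
  set ε := y - tc_dd with hε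
  have hyε : y = tc_dd + ε := by rw [hε]; ring
  have hε0 : ε ≠ 0 := by
    intro h
    rw [h, add_zero] at hyε
    rw [hyε] at hy
    exact hev hy
  have hε2 : PowerSeries.X ^ 2 ∣ ε := (pow_dvd_pow _ (by
    have : δ + 2 ≤ M := by nlinarith
    omega)).trans hyd
  set y' := PowerSeries.expand 3 (by norm_num) y with hy'
  set ε' := PowerSeries.expand 3 (by norm_num) ε with hε'
  -- the twisted polynomial
  set P' := P.map (Polynomial.expand kk 3).toRingHom with hP'
  have hexpinj : Function.Injective (Polynomial.expand kk 3) :=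
    Polynomial.expand_injective (by norm_num)
  have hP'n : P'.natDegree = d := by
    rw [hP', Polynomial.natDegree_map_eq_of_injective]
    exact hexpinj
  have hP'H : ∀ k, (P'.coeff k).natDegree ≤ 3 * H := by
    intro k
    rw [hP', Polynomial.coeff_map]
    change ((Polynomial.expand kk 3) (P.coeff k)).natDegree ≤ 3 * H
    rw [Polynomial.natDegree_expand]
    have := hPH k
    omega
  have hy'0 : (P'.map (Polynomial.coeToPowerSeries.ringHom (R := kk))).eval y' = 0 := by
    have h1 := congrArg (PowerSeries.expand 3 (by norm_num)) hy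
    rw [map_zero, Polynomial.eval_map] at h1
    rw [hP', Polynomial.map_map, Polynomial.eval_map, hy', ← h1]
    have h2 := Polynomial.hom_eval₂ P (Polynomial.coeToPowerSeries.ringHom (R := kk))
      (PowerSeries.expand 3 (R := kk) (by norm_num)).toRingHom y
    refine Eq.trans ?_ h2.symm
    have h3 : (Polynomial.coeToPowerSeries.ringHom (R := kk)).comp
        (Polynomial.expand kk 3).toRingHom =
        ((PowerSeries.expand 3 (R := kk) (by norm_num)).toRingHom).comp
          (Polynomial.coeToPowerSeries.ringHom (R := kk)) := by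
      apply RingHom.ext
      intro p
      exact (zs_expand_coe p).symm
    rw [h3]
    rfl
  -- theta
  set θ := (y' + y) ^ 4 + y' * y with hθ
  have hθ' : θ = ε ^ 4 + ε' ^ 4 + tc_dd * ε' +
      PowerSeries.expand 3 (by norm_num) tc_dd * ε + ε' * ε := by
    rw [hθ, hy', hyε]
    exact zs_theta hphi ε
  have hθ0 : θ ≠ 0 := by
    rw [hθ']
    exact zs_theta_ne ε hε0 hε2
  have hε'd : PowerSeries.X ^ (M - δ) ∣ ε' := by
    obtain ⟨u, hu⟩ := hyd
    rw [hε', hu, map_mul, map_pow, PowerSeries.expand_X, ← pow_mul]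
    exact dvd_mul_of_dvd_left (pow_dvd_pow _ (by omega)) _
  have hθd : PowerSeries.X ^ (M - δ) ∣ θ := by
    have h1 : θ = ε * (ε ^ 3 + PowerSeries.expand 3 (by norm_num) tc_dd + ε') +
        ε' * (ε' ^ 3 + tc_dd) := by
      rw [hθ']
      ring
    rw [h1]
    exact dvd_add (dvd_mul_of_dvd_left hyd _) (dvd_mul_of_dvd_left hε'd _)
  -- the eigenvalue
  set a := P.leadingCoeff with ha
  set b := P'.leadingCoeff with hb
  have ha0 : a ≠ 0 := Polynomial.leadingCoeff_ne_zero.2 hP
  have hP'0 : P' ≠ 0 := by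
    rw [hP', Ne, Polynomial.map_eq_zero_iff hexpinj]
    exact hP
  have hb0 : b ≠ 0 := Polynomial.leadingCoeff_ne_zero.2 hP'0
  set w : Fin d × Fin d → PowerSeries kk := fun ij => y ^ (ij.1 : ℕ) * y' ^ (ij.2 : ℕ) with hw
  have e1 : ZsEig w H ((a : PowerSeries kk) * y) := zs_comp P d H rfl hPH y y' hy
  have e2 : ZsEig w (3 * H) ((b : PowerSeries kk) * y') := by
    have := zs_comp P' d (3 * H) hP'n hP'H y' y hy'0
    refine ZsEig.equiv (Equiv.prodComm (Fin d) (Fin d)) ?_
    have h2 : (fun i => w ((Equiv.prodComm (Fin d) (Fin d)) i)) =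
        (fun ij : Fin d × Fin d => y' ^ (ij.1 : ℕ) * y ^ (ij.2 : ℕ)) := by
      funext ij
      simp only [hw, Equiv.prodComm_apply, Prod.fst_swap, Prod.snd_swap]
      ring
    rw [h2]
    exact this
  have ea : ZsEig w H (a : PowerSeries kk) := ZsEig.poly w a (hPH _)
  have eb : ZsEig w (3 * H) (b : PowerSeries kk) := ZsEig.poly w b (hP'H _)
  have e3 : ZsEig w (16 * H) (((a : PowerSeries kk) * b) ^ 4 * θ) := by
    have h1 := (((ea.mul e2).add ((eb.mul e1).mono (by omega))).pow 4)
    have h2 := ((ea.mul eb).pow 3).mul (e1.mul e2)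
    have h3 := (h1.mono (show 4 * (H + 3 * H) ≤ 16 * H by omega)).add
      (h2.mono (show 3 * (H + 3 * H) + (H + 3 * H) ≤ 16 * H by omega))
    have h4 : ((a : PowerSeries kk) * b) ^ 4 * θ =
        ((a : PowerSeries kk) * (b * y') + b * (a * y)) ^ 4 + (a * b) ^ 3 * (a * y * (b * y')) := by
      rw [hθ]
      ring
    rw [h4]
    exact h3
  have hab : ((a : PowerSeries kk) * b) ^ 4 * θ ≠ 0 := by
    refine mul_ne_zero (pow_ne_zero _ (mul_ne_zero ?_ ?_)) hθ0
    · rw [Ne, Polynomial.coe_eq_zero_iff]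
      exact ha0
    · rw [Ne, Polynomial.coe_eq_zero_iff]
      exact hb0
  have hw0 : w ≠ 0 := by
    intro h
    have h1 := congrFun h (⟨0, by omega⟩, ⟨0, by omega⟩)
    simp [hw] at h1
  have hfin := e3.lio hlio hw0 hab
  apply hfin
  refine (pow_dvd_pow _ ?_).trans (dvd_mul_of_dvd_right hθd _)
  rw [Fintype.card_prod, Fintype.card_fin]
  have h1 : d * d ≤ n * n := Nat.mul_le_mul hPn hPn
  have h2 : d * d * (16 * H) ≤ n * n * (16 * H) := Nat.mul_le_mul_right _ h1
  have h3 : δ + (d * d * (16 * H) + 1) ≤ M := by nlinarith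
  omega

end Pool.Agent.helper7.IG
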